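import Pool.Agent.H31.CN.T3

/-!
# The integral of the main term
-/

set_option autoImplicit false

open MeasureTheory

namespace Pool.Agent.H49.CN

open Pool.Agent.H31.CN

theorem pf_INT : T_INT := by
  intro P k hP
  obtain ⟨R, rfl⟩ := hP
  set P : Polynomial ℝ := Polynomial.X ^ 2 * R with hPdef
  have h0 : P.eval 0 = 0 := by rw [hPdef]; simp
  have h1 : P.derivative.eval 0 = 0 := by rw [hPdef]; simp [Polynomial.derivative_mul]
  let Q : Polynomial ℝ := Polynomial.C (k ^ 2 / 2) * P.derivative ^ 2 +
    Polynomial.C k * (P * P.derivative) + Polynomial.C (1 / 2) * P ^ 2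
  have hQ : ∀ t : ℝ, Fi k (P.eval t) (P.derivative.eval t) (P.derivative.derivative.eval t) =
      k ^ 3 / 6 * P.derivative.derivative.eval t ^ 2 + Q.derivative.eval t := by
    intro t
    simp only [Q, Fi, Polynomial.derivative_add, Polynomial.derivative_mul,
      Polynomial.derivative_C, Polynomial.derivative_pow, Polynomial.eval_add,
      Polynomial.eval_mul, Polynomial.eval_C, Polynomial.eval_pow, zero_mul, zero_add,
      Polynomial.eval_natCast]
    push_cast
    ring
  have hint : ∫ t in (0 : ℝ)..1, Q.derivative.eval t = Q.eval 1 - Q.eval 0 :=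
    intervalIntegral.integral_eq_sub_of_hasDerivAt (fun t _ => Q.hasDerivAt t)
      (Q.derivative.continuous.intervalIntegrable _ _)
  simp only [hQ]
  have hc : Continuous fun t : ℝ => k ^ 3 / 6 * P.derivative.derivative.eval t ^ 2 :=
    continuous_const.mul (P.derivative.derivative.continuous.pow 2)
  have hd : Continuous fun t : ℝ => Q.derivative.eval t := Q.derivative.continuous
  rw [intervalIntegral.integral_add (hc.intervalIntegrable _ _) (hd.intervalIntegrable _ _),
    intervalIntegral.integral_const_mul, hint]
  have hQ0 : Q.eval 0 = 0 := by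
    simp only [Q, Polynomial.eval_add, Polynomial.eval_mul, Polynomial.eval_C,
      Polynomial.eval_pow, h0, h1]
    ring
  have hQ1 : Q.eval 1 = 1 / 2 * (P.eval 1 + k * P.derivative.eval 1) ^ 2 := by
    simp only [Q, Polynomial.eval_add, Polynomial.eval_mul, Polynomial.eval_C,
      Polynomial.eval_pow]
    ring
  rw [hQ0, hQ1]
  ring

end Pool.Agent.H49.CN
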