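import Pool.Agent.H31.CN.T3

/-!
# The moments of the mollifier sums
-/

set_option autoImplicit false

namespace Pool.Agent.H49.CN

open Pool.Agent.H31.CN

theorem mo_al (i j : ℕ) (p : ℕ) : mo i j (al p) =
    1 / (p : ℝ) * (Real.log p ^ i * 0 ^ j + 0 ^ i * Real.log p ^ j) := by
  rw [al, map_smul, map_add, mo_E, mo_E, smul_eq_mul]

/-- the moments of the product of the `al p` -/
theorem mo_prod (hMOM : T_MOM) (S : Finset ℕ) : ∀ (L V R : ℝ), L = ∑ p ∈ S, Real.log p →
    V = ∑ p ∈ S, Real.log p ^ 2 → R = (∏ p ∈ S, (1 / (p : ℝ))) * 2 ^ S.card →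
    mo 0 0 (∏ p ∈ S, al p) = R ∧
    mo 1 0 (∏ p ∈ S, al p) = R * (L / 2) ∧
    mo 0 1 (∏ p ∈ S, al p) = R * (L / 2) ∧
    mo 1 1 (∏ p ∈ S, al p) = R * ((L ^ 2 - V) / 4) ∧
    mo 2 0 (∏ p ∈ S, al p) = R * ((L ^ 2 + V) / 4) ∧
    mo 0 2 (∏ p ∈ S, al p) = R * ((L ^ 2 + V) / 4) ∧
    mo 3 0 (∏ p ∈ S, al p) = R * ((L ^ 3 + 3 * V * L) / 8) ∧
    mo 0 3 (∏ p ∈ S, al p) = R * ((L ^ 3 + 3 * V * L) / 8) ∧
    mo 2 1 (∏ p ∈ S, al p) = R * ((L ^ 3 - V * L) / 8) ∧
    mo 1 2 (∏ p ∈ S, al p) = R * ((L ^ 3 - V * L) / 8) := by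
  classical
  induction S using Finset.induction_on with
  | empty =>
    intro L V R hL hV hR
    simp only [Finset.sum_empty] at hL hV
    simp only [Finset.prod_empty, Finset.card_empty, pow_zero, mul_one] at hR
    subst hL hV hR
    simp only [Finset.prod_empty, mo_one]
    norm_num
  | insert p S hp ih =>
    intro L V R hL hV hR
    rw [Finset.sum_insert hp] at hL hV
    rw [Finset.prod_insert hp, Finset.card_insert_of_notMem hp] at hR
    rw [Finset.prod_insert hp]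
    obtain ⟨h00, h10, h01, h11, h20, h02, h30, h03, h21, h12⟩ := ih _ _ _ rfl rfl rfl
    generalize (∏ p ∈ S, al p) = A at *
    generalize (∑ p ∈ S, Real.log p) = l at *
    generalize (∑ p ∈ S, Real.log p ^ 2) = v at *
    generalize (∏ p ∈ S, (1 / (p : ℝ))) = r at *
    subst hL hV hR
    refine ⟨?_, ?_, ?_, ?_, ?_, ?_, ?_, ?_, ?_, ?_⟩ <;>
    · rw [hMOM]
      simp only [Finset.sum_range_succ, Finset.sum_range_zero, mo_al, h00, h10, h01, h11, h20,
        h02, h30, h03, h21, h12, Nat.choose_zero_right, Nat.choose_one_right, Nat.choose_self,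
        Nat.choose_succ_self_right, pow_zero, zero_add, Nat.cast_one, pow_one, Nat.sub_zero,
        Nat.reduceSub, Nat.reduceAdd]
      norm_num [Nat.choose]
      ring

/-- the moments for squarefree numbers -/
theorem data_sf (n : ℕ) (hn : Squarefree n) :
    Real.log n = ∑ p ∈ n.primeFactors, Real.log p ∧
    2 ^ n.primeFactors.card / (n : ℝ) =
      (∏ p ∈ n.primeFactors, (1 / (p : ℝ))) * 2 ^ n.primeFactors.card := by
  have h1 : (n : ℝ) = ∏ p ∈ n.primeFactors, (p : ℝ) := by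
    rw [← Nat.cast_prod, Nat.prod_primeFactors_of_squarefree hn]
  constructor
  · conv_lhs => rw [h1]
    rw [Real.log_prod]
    intro p hp
    exact_mod_cast (Nat.prime_of_mem_primeFactors hp).ne_zero
  · conv_lhs => rw [h1]
    rw [Finset.prod_div_distrib, Finset.prod_const_one]
    ring

theorem pf_BDM (hMOM : T_MOM) : T_BDM := by
  intro c n₀ d hd hc B b s hs hB hb
  have hterm : ∀ (i j : ℕ) (Q : ℝ → ℝ → ℝ), (∀ n : ℕ, Squarefree n →
      mo i j (∏ p ∈ n.primeFactors, al p) = 2 ^ n.primeFactors.card / (n : ℝ) *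
        Q (Real.log n) (ve n)) →
      mo i j B = ∑ n ∈ s, b n * Q (Real.log n) (ve n) := by
    intro i j Q hQ
    rw [hB, map_sum]
    refine Finset.sum_congr rfl fun n _ => ?_
    rw [map_smul, smul_eq_mul, hb]
    by_cases hsf : Squarefree (d * n)
    · rw [hQ n (hsf.squarefree_of_dvd (Dvd.intro_left d rfl))]
      ring
    · simp only [hc _ hsf, zero_mul, zero_div]
  have hkey : ∀ n : ℕ, Squarefree n → _ := fun n hn =>
    mo_prod hMOM n.primeFactors (Real.log n) (ve n) (2 ^ n.primeFactors.card / (n : ℝ))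
      (data_sf n hn).1 rfl (data_sf n hn).2
  refine ⟨?_, ?_, ?_, ?_, ?_, ?_, ?_, ?_, ?_, ?_⟩
  · rw [hterm 0 0 (fun _ _ => 1) (fun n hn => by rw [(hkey n hn).1, mul_one])]
    simp
  · rw [hterm 1 0 (fun l _ => l / 2) (fun n hn => (hkey n hn).2.1), Finset.mul_sum]
    exact Finset.sum_congr rfl fun n _ => by ring
  · rw [hterm 0 1 (fun l _ => l / 2) (fun n hn => (hkey n hn).2.2.1), Finset.mul_sum]
    exact Finset.sum_congr rfl fun n _ => by ring
  · rw [hterm 1 1 (fun l v => (l ^ 2 - v) / 4) (fun n hn => (hkey n hn).2.2.2.1),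
      Finset.mul_sum]
    exact Finset.sum_congr rfl fun n _ => by ring
  · rw [hterm 2 0 (fun l v => (l ^ 2 + v) / 4) (fun n hn => (hkey n hn).2.2.2.2.1),
      Finset.mul_sum]
    exact Finset.sum_congr rfl fun n _ => by ring
  · rw [hterm 0 2 (fun l v => (l ^ 2 + v) / 4) (fun n hn => (hkey n hn).2.2.2.2.2.1),
      Finset.mul_sum]
    exact Finset.sum_congr rfl fun n _ => by ring
  · rw [hterm 3 0 (fun l v => (l ^ 3 + 3 * v * l) / 8) (fun n hn => (hkey n hn).2.2.2.2.2.2.1),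
      Finset.mul_sum]
    exact Finset.sum_congr rfl fun n _ => by ring
  · rw [hterm 0 3 (fun l v => (l ^ 3 + 3 * v * l) / 8)
      (fun n hn => (hkey n hn).2.2.2.2.2.2.2.1), Finset.mul_sum]
    exact Finset.sum_congr rfl fun n _ => by ring
  · rw [hterm 2 1 (fun l v => (l ^ 3 - v * l) / 8)
      (fun n hn => (hkey n hn).2.2.2.2.2.2.2.2.1), Finset.mul_sum]
    exact Finset.sum_congr rfl fun n _ => by ring
  · rw [hterm 1 2 (fun l v => (l ^ 3 - v * l) / 8)
      (fun n hn => (hkey n hn).2.2.2.2.2.2.2.2.2), Finset.mul_sum]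
    exact Finset.sum_congr rfl fun n _ => by ring

end Pool.Agent.H49.CN
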