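import Pool.Agent.H49.CN.CHA
import Mathlib.NumberTheory.LegendreSymbol.QuadraticChar.Basic

/-!
# Sums of characters over the fundamental discriminants
-/

set_option autoImplicit false

open Finset
open scoped Real

namespace Pool.Agent.H49.CN

open Pool.Agent.H31.CN

/-! ### The characters -/

theorem chi_add (p : ℕ) (D t : ℤ) (hp : (p : ℤ) ∣ t) (h8 : 8 ∣ t) : chi p (D + t) = chi p D := by
  obtain ⟨s, rfl⟩ := h8
  unfold chi
  by_cases h2 : p = 2
  · rw [if_pos h2, if_pos h2]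
    have : (D + 8 * s) % 8 = D % 8 := by omega
    rw [this]
  · rw [if_neg h2, if_neg h2]
    congr 2
    unfold nrt
    congr 1
    refine Finset.filter_congr fun j _ => ?_
    rw [← add_assoc]
    exact dvd_add_left hp

theorem chi_odd (p : ℕ) [Fact p.Prime] (hp : p ≠ 2) (D : ℤ) :
    chi p D = quadraticChar (ZMod p) (-(D : ZMod p)) := by
  classical
  have hF : ringChar (ZMod p) ≠ 2 := by rw [ZMod.ringChar_zmod_n]; exact hp
  have h1 := quadraticChar_card_sqrts hF (-(D : ZMod p))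
  have h2 : nrt p 1 0 D = {x : ZMod p | x ^ 2 = -(D : ZMod p)}.toFinset.card := by
    unfold nrt
    have hiff : ∀ j : ℕ, ((p : ℤ) ∣ 1 * (j : ℤ) ^ 2 + 0 * (j : ℤ) + D) ↔
        (j : ZMod p) ^ 2 = -(D : ZMod p) := by
      intro j
      rw [← ZMod.intCast_zmod_eq_zero_iff_dvd]
      push_cast
      rw [one_mul, zero_mul, add_zero, eq_neg_iff_add_eq_zero]
    refine Finset.card_nbij' (fun j => (j : ZMod p)) (fun x => x.val) ?_ ?_ ?_ ?_
    · intro j hj
      have hj' := (Finset.mem_filter.1 (Finset.mem_coe.1 hj)).2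
      rw [Finset.mem_coe, Set.mem_toFinset]
      exact (hiff j).1 hj'
    · intro x hx
      rw [Finset.mem_coe, Set.mem_toFinset] at hx
      rw [Finset.mem_coe, Finset.mem_filter, Finset.mem_range]
      refine ⟨ZMod.val_lt x, (hiff _).2 ?_⟩
      rw [ZMod.natCast_zmod_val]
      exact hx
    · intro j hj
      have hj' := Finset.mem_range.1 (Finset.mem_filter.1 (Finset.mem_coe.1 hj)).1
      exact ZMod.val_cast_of_lt hj'
    · intro x _
      exact ZMod.natCast_zmod_val x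
  rw [chi, if_neg hp, h2, h1]
  ring

theorem chi_abs (p : ℕ) (hp : p.Prime) (D : ℤ) : |(chi p D : ℝ)| ≤ 1 := by
  by_cases h2 : p = 2
  · rw [chi, if_pos h2]
    split_ifs <;> norm_num
  · haveI : Fact p.Prime := ⟨hp⟩
    rw [chi_odd p h2]
    rcases quadraticChar_isQuadratic (F := ZMod p) (-(D : ZMod p)) with h | h | h <;>
      rw [h] <;> norm_num

theorem sum_zmod (p : ℕ) [Fact p.Prime] (F : ZMod p → ℤ) :
    ∑ t ∈ Finset.range p, F (t : ZMod p) = ∑ x : ZMod p, F x := by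
  refine Finset.sum_nbij' (fun j => (j : ZMod p)) (fun x => x.val) ?_ ?_ ?_ ?_ ?_
  · intro j _; exact Finset.mem_univ _
  · intro x _; exact Finset.mem_range.2 (ZMod.val_lt x)
  · intro j hj; exact ZMod.val_cast_of_lt (Finset.mem_range.1 hj)
  · intro x _; exact ZMod.natCast_zmod_val x
  · intro j _; rfl

theorem chi_sum (p : ℕ) (hp : p.Prime) (h2 : p ≠ 2) (a r Q : ℕ) (hQ : ¬ p ∣ Q) :
    ∑ t ∈ Finset.range p, (chi p ((a ^ 2 * (r + Q * t) : ℕ) : ℤ) : ℝ) = 0 := by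
  haveI : Fact p.Prime := ⟨hp⟩
  have hF : ringChar (ZMod p) ≠ 2 := by rw [ZMod.ringChar_zmod_n]; exact h2
  have h1 : ∀ t ∈ Finset.range p, chi p ((a ^ 2 * (r + Q * t) : ℕ) : ℤ) =
      quadraticChar (ZMod p) (-((a : ZMod p) ^ 2 * ((r : ZMod p) + (Q : ZMod p) * (t : ZMod p)))) := by
    intro t _
    rw [chi_odd p h2]
    congr 1
    push_cast
    ring
  have h3 : ∑ t ∈ Finset.range p, chi p ((a ^ 2 * (r + Q * t) : ℕ) : ℤ) = 0 := by
    rw [Finset.sum_congr rfl h1, sum_zmod p (fun x => quadraticChar (ZMod p)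
      (-((a : ZMod p) ^ 2 * ((r : ZMod p) + (Q : ZMod p) * x))))]
    by_cases ha : (a : ZMod p) = 0
    · simp [ha]
    · have hQ' : (Q : ZMod p) ≠ 0 := by
        rw [Ne, ZMod.natCast_eq_zero_iff]
        exact hQ
      have hinj : Function.Injective (fun x : ZMod p =>
          -((a : ZMod p) ^ 2 * ((r : ZMod p) + (Q : ZMod p) * x))) := by
        intro x y hxy
        have h4 : (a : ZMod p) ^ 2 * ((r : ZMod p) + (Q : ZMod p) * x) =
            (a : ZMod p) ^ 2 * ((r : ZMod p) + (Q : ZMod p) * y) := neg_injective hxy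
        have h5 := mul_left_cancel₀ (pow_ne_zero 2 ha) h4
        exact mul_left_cancel₀ hQ' (add_left_cancel h5)
      rw [Fintype.sum_bijective _ (Finite.injective_iff_bijective.1 hinj) _
        (fun x => quadraticChar (ZMod p) x) (fun x => rfl)]
      exact quadraticChar_sum_zero hF
  exact_mod_cast h3

/-- the character on the class `3` modulo `4` -/
noncomputable def gl (l D : ℕ) : ℝ :=
  if D % 4 = 3 then ∏ p ∈ l.primeFactors, (chi p (D : ℤ) : ℝ) else 0

theorem gl_abs (l D : ℕ) : |gl l D| ≤ 1 := by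
  rw [gl]
  split_ifs
  · rw [Finset.abs_prod]
    exact Finset.prod_le_one (fun _ _ => abs_nonneg _)
      fun p hp => chi_abs p (Nat.prime_of_mem_primeFactors hp) _
  · rw [abs_zero]; exact zero_le_one

theorem gl_per (l a k : ℕ) : gl l (a ^ 2 * (k + 8 * l)) = gl l (a ^ 2 * k) := by
  have h1 : a ^ 2 * (k + 8 * l) = a ^ 2 * k + 8 * (l * a ^ 2) := by ring
  rw [h1, gl, gl]
  have h2 : (a ^ 2 * k + 8 * (l * a ^ 2)) % 4 = (a ^ 2 * k) % 4 := by omega
  rw [h2]
  split_ifs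
  · refine Finset.prod_congr rfl fun p hp => ?_
    have h3 : (((a ^ 2 * k + 8 * (l * a ^ 2) : ℕ)) : ℤ) =
        ((a ^ 2 * k : ℕ) : ℤ) + 8 * ((l : ℤ) * (a : ℤ) ^ 2) := by push_cast; ring
    rw [h3, chi_add p _ _ _ (dvd_mul_right _ _)]
    refine Dvd.dvd.mul_left (Dvd.dvd.mul_right ?_ _) _
    exact_mod_cast Nat.dvd_of_mem_primeFactors hp
  · rfl

theorem sum_split (Q p : ℕ) (f : ℕ → ℝ) : ∑ k ∈ Finset.range (Q * p), f k =
    ∑ r ∈ Finset.range Q, ∑ t ∈ Finset.range p, f (r + Q * t) := by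
  induction p with
  | zero => simp
  | succ p ih =>
    rw [Nat.mul_succ, Finset.sum_range_add, ih, ← Finset.sum_add_distrib]
    refine Finset.sum_congr rfl fun r _ => ?_
    rw [Finset.sum_range_succ, add_comm (Q * p) r]

/-- the sum over a period -/
theorem gl_sum (l a : ℕ) (hl : 1 < l) (hsf : Squarefree l) :
    ∑ k ∈ Finset.range (8 * l), gl l (a ^ 2 * k) = 0 := by
  classical
  by_cases hex : ∃ p ∈ l.primeFactors, p ≠ 2
  · obtain ⟨p, hp, hp2⟩ := hex
    have hpp := Nat.prime_of_mem_primeFactors hp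
    obtain ⟨l', hl'⟩ := Nat.dvd_of_mem_primeFactors hp
    have hpl : ¬ p ∣ l' := by
      intro h
      have h1 : p * p ∣ l := by rw [hl']; exact Nat.mul_dvd_mul_left p h
      exact hpp.one_lt.ne' (Nat.isUnit_iff.1 (hsf p h1))
    have hQ : ¬ p ∣ 8 * l' := by
      intro h
      rcases (hpp.dvd_mul).1 h with h | h
      · have h3 : p ∣ 2 ^ 3 := by norm_num; exact h
        have h4 := hpp.dvd_of_dvd_pow h3
        exact hp2 ((Nat.prime_dvd_prime_iff_eq hpp Nat.prime_two).1 h4)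
      · exact hpl h
    have h8 : 8 * l = (8 * l') * p := by rw [hl']; ring
    rw [h8, sum_split]
    refine Finset.sum_eq_zero fun r _ => ?_
    have h1 : ∀ t ∈ Finset.range p, gl l (a ^ 2 * (r + 8 * l' * t)) =
        (if (a ^ 2 * r) % 4 = 3 then
          ∏ q ∈ l.primeFactors.erase p, (chi q ((a ^ 2 * r : ℕ) : ℤ) : ℝ) else 0) *
          (chi p ((a ^ 2 * (r + 8 * l' * t) : ℕ) : ℤ) : ℝ) := by
      intro t _
      rw [gl]
      have h2 : (a ^ 2 * (r + 8 * l' * t)) % 4 = (a ^ 2 * r) % 4 := by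
        have : a ^ 2 * (r + 8 * l' * t) = a ^ 2 * r + 4 * (2 * (a ^ 2 * l' * t)) := by ring
        omega
      rw [h2]
      split_ifs
      · rw [← Finset.prod_erase_mul _ _ hp]
        congr 1
        refine Finset.prod_congr rfl fun q hq => ?_
        have hq' := Finset.mem_erase.1 hq
        have hqp := Nat.prime_of_mem_primeFactors hq'.2
        have hql : q ∣ l' := by
          have h3 := Nat.dvd_of_mem_primeFactors hq'.2
          rw [hl'] at h3
          rcases (hqp.dvd_mul).1 h3 with h | h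
          · exact absurd ((Nat.prime_dvd_prime_iff_eq hqp hpp).1 h) hq'.1
          · exact h
        have h3 : (((a ^ 2 * (r + 8 * l' * t) : ℕ)) : ℤ) =
            ((a ^ 2 * r : ℕ) : ℤ) + 8 * ((l' : ℤ) * ((a : ℤ) ^ 2 * t)) := by push_cast; ring
        rw [h3, chi_add q _ _ _ (dvd_mul_right _ _)]
        refine Dvd.dvd.mul_left (Dvd.dvd.mul_right ?_ _) _
        exact_mod_cast hql
      · rw [zero_mul]
    rw [Finset.sum_congr rfl h1, ← Finset.mul_sum, chi_sum p hpp hp2 a r (8 * l') hQ, mul_zero]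
  · push Not at hex
    have h1 : l.primeFactors = {2} := by
      refine Finset.eq_singleton_iff_nonempty_unique_mem.2 ⟨?_, hex⟩
      exact Nat.nonempty_primeFactors.2 hl
    have h2 : l = 2 := by
      rw [← Nat.prod_primeFactors_of_squarefree hsf, h1, Finset.prod_singleton]
    subst h2
    have hgl : ∀ D : ℕ, gl 2 D = if D % 4 = 3 then (if D % 8 = 7 then 1 else -1) else 0 := by
      intro D
      rw [gl, h1, Finset.prod_singleton, chi, if_pos rfl]
      have : ((D : ℤ) % 8 = 7) ↔ D % 8 = 7 := by omega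
      simp only [this]
      split_ifs <;> norm_num
    simp only [hgl]
    have ha : a ^ 2 % 8 = 0 ∨ a ^ 2 % 8 = 1 ∨ a ^ 2 % 8 = 4 := by
      have h3 : a % 8 < 8 := Nat.mod_lt _ (by norm_num)
      rw [Nat.pow_mod]
      interval_cases (a % 8) <;> norm_num
    rcases ha with ha | ha | ha
    · refine Finset.sum_eq_zero fun k _ => ?_
      rw [if_neg]
      have h3 : a ^ 2 * k = 8 * (a ^ 2 / 8) * k := by
        congr 1; omega
      have h4 : a ^ 2 * k = 4 * (2 * (a ^ 2 / 8) * k) := by rw [h3]; ring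
      omega
    · have h3 : ∀ k : ℕ, (a ^ 2 * k) % 8 = k % 8 := by
        intro k
        rw [Nat.mul_mod, ha, one_mul, Nat.mod_mod]
      have h4 : ∀ k : ℕ, (a ^ 2 * k) % 4 = k % 4 := by
        intro k
        have := h3 k
        omega
      simp only [h3, h4]
      simp [Finset.sum_range_succ]
    · refine Finset.sum_eq_zero fun k _ => ?_
      rw [if_neg]
      have h3 : a ^ 2 = 4 * (a ^ 2 / 4) := by omega
      have h4 : a ^ 2 * k = 4 * ((a ^ 2 / 4) * k) := by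
        conv_lhs => rw [h3]
        ring
      omega

/-- incomplete sums of a periodic function with mean zero -/
theorem per_bound (g : ℕ → ℝ) (q : ℕ) (hq : 0 < q) (hg : ∀ k, g (k + q) = g k)
    (h0 : ∑ k ∈ Finset.range q, g k = 0) (h1 : ∀ k, |g k| ≤ 1) (n : ℕ) :
    |∑ k ∈ Finset.range n, g k| ≤ q := by
  induction n using Nat.strong_induction_on with
  | _ n ih =>
    rcases lt_or_ge n q with h | h
    · refine (Finset.abs_sum_le_sum_abs _ _).trans ((Finset.sum_le_sum fun k _ => h1 k).trans ?_)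
      rw [Finset.sum_const, Finset.card_range, nsmul_eq_mul, mul_one]
      exact_mod_cast h.le
    · have h2 : n = q + (n - q) := by omega
      rw [h2, Finset.sum_range_add, h0, zero_add]
      have h3 : ∀ k ∈ Finset.range (n - q), g (q + k) = g k := fun k _ => by
        rw [add_comm, hg]
      rw [Finset.sum_congr rfl h3]
      exact ih (n - q) (by omega)

theorem inner_bound (l a m : ℕ) (hl : 1 < l) (hsf : Squarefree l) :
    |∑ k ∈ Finset.Icc 1 m, gl l (a ^ 2 * k)| ≤ 8 * l := by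
  have h1 := per_bound (fun k => gl l (a ^ 2 * k)) (8 * l) (by omega) (fun k => gl_per l a k)
    (gl_sum l a hl hsf) (fun k => gl_abs l _) (m + 1)
  have h2 : ∑ k ∈ Finset.range (m + 1), gl l (a ^ 2 * k) =
      ∑ k ∈ Finset.Icc 1 m, gl l (a ^ 2 * k) := by
    rw [Finset.sum_range_succ']
    have h3 : gl l (a ^ 2 * 0) = 0 := by rw [gl, if_neg (by norm_num)]
    rw [h3, add_zero, Finset.range_eq_Ico, Finset.sum_Ico_add' (fun k => gl l (a ^ 2 * k)) 0 m 1]
    rfl
  rw [h2] at h1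
  push_cast at h1
  exact h1

/-! ### The family -/

theorem sum_fam (X : ℝ) (g : ℕ → ℝ) (hg : ∀ D, |g D| ≤ 1) (hg3 : ∀ D, D % 4 ≠ 3 → g D = 0) :
    |∑ D ∈ (Finset.Icc 1 ⌊X⌋₊).filter Squarefree, g D - ∑ D ∈ fam X, g D| ≤ 1 := by
  classical
  have h1 : ∑ D ∈ (Finset.Icc 1 ⌊X⌋₊).filter Squarefree, g D =
      ∑ D ∈ fam X, g D + ∑ D ∈ (Finset.Icc 1 ⌊X⌋₊).filter (fun D => D = 3), g D := by
    rw [fam, Finset.sum_filter, Finset.sum_filter, Finset.sum_filter, ← Finset.sum_add_distrib]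
    refine Finset.sum_congr rfl fun D hD => ?_
    by_cases h3 : D = 3
    · subst h3
      rw [if_pos Nat.prime_three.prime.squarefree, if_neg (by norm_num), if_pos rfl, zero_add]
    · rw [if_neg h3, add_zero]
      by_cases h4 : D % 4 = 3
      · have h5 : 3 < D := by omega
        simp only [h4, h5, true_and]
      · rw [hg3 D h4]
        simp
  rw [h1, add_sub_cancel_left]
  refine (Finset.abs_sum_le_sum_abs _ _).trans ((Finset.sum_le_sum fun k _ => hg k).trans ?_)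
  rw [Finset.sum_const, nsmul_eq_mul, mul_one]
  have h2 : ((Finset.Icc 1 ⌊X⌋₊).filter (fun D => D = 3)).card ≤ ({3} : Finset ℕ).card := by
    refine Finset.card_le_card fun D hD => ?_
    rw [Finset.mem_singleton]
    exact (Finset.mem_filter.1 hD).2
  rw [Finset.card_singleton] at h2
  exact_mod_cast h2

theorem sqrt_facts (X : ℝ) (hX : 1 ≤ X) : (Nat.sqrt ⌊X⌋₊ : ℝ) ≤ Real.sqrt X ∧
    Real.sqrt X ≤ (Nat.sqrt ⌊X⌋₊ : ℝ) + 1 ∧ Real.sqrt X ≤ X ^ (3 / 4 : ℝ) ∧
    1 ≤ Real.sqrt X := by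
  have h0 : 0 ≤ X := by linarith
  refine ⟨?_, ?_, ?_, ?_⟩
  · apply Real.le_sqrt_of_sq_le
    have h1 : Nat.sqrt ⌊X⌋₊ ^ 2 ≤ ⌊X⌋₊ := Nat.sqrt_le' _
    calc (Nat.sqrt ⌊X⌋₊ : ℝ) ^ 2 = ((Nat.sqrt ⌊X⌋₊ ^ 2 : ℕ) : ℝ) := by push_cast; ring
      _ ≤ (⌊X⌋₊ : ℝ) := by exact_mod_cast h1
      _ ≤ X := Nat.floor_le h0
  · apply Real.sqrt_le_iff.2
    refine ⟨by positivity, ?_⟩
    have h1 : ⌊X⌋₊ < (Nat.sqrt ⌊X⌋₊ + 1) ^ 2 := Nat.lt_succ_sqrt' _
    have h2 : X < (⌊X⌋₊ : ℝ) + 1 := Nat.lt_floor_add_one X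
    have h3 : ((⌊X⌋₊ + 1 : ℕ) : ℝ) ≤ (((Nat.sqrt ⌊X⌋₊ + 1) ^ 2 : ℕ) : ℝ) := by exact_mod_cast h1
    push_cast at h3
    linarith
  · rw [Real.sqrt_eq_rpow]
    exact Real.rpow_le_rpow_of_exponent_le hX (by norm_num)
  · rw [← Real.sqrt_one]
    exact Real.sqrt_le_sqrt hX

theorem chs_one : ∃ C : ℝ, 0 < C ∧ ∀ (X : ℝ) (l : ℕ), 1 ≤ X → 1 < l → Squarefree l →
    |∑ D ∈ fam X, ∏ p ∈ l.primeFactors, (chi p D : ℝ)| ≤ C * l * X ^ (3 / 4 : ℝ) := by
  refine ⟨9, by norm_num, fun X l hX hl hsf => ?_⟩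
  obtain ⟨h1, -, h3, h4⟩ := sqrt_facts X hX
  have hl1 : (1 : ℝ) ≤ l := by exact_mod_cast hl.le
  have h5 : ∑ D ∈ fam X, ∏ p ∈ l.primeFactors, (chi p D : ℝ) = ∑ D ∈ fam X, gl l D := by
    refine Finset.sum_congr rfl fun D hD => ?_
    rw [gl, if_pos (Finset.mem_filter.1 hD).2.2.1]
  rw [h5]
  have h6 := sum_fam X (gl l) (fun D => gl_abs l D) (fun D hD => by rw [gl, if_neg hD])
  have h7 : |∑ D ∈ (Finset.Icc 1 ⌊X⌋₊).filter Squarefree, gl l D| ≤
      8 * l * Real.sqrt X := by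
    rw [sum_sf]
    refine (Finset.abs_sum_le_sum_abs _ _).trans ?_
    have h8 : ∀ a ∈ Finset.Icc 1 (Nat.sqrt ⌊X⌋₊),
        |mr a * ∑ k ∈ Finset.Icc 1 (⌊X⌋₊ / a ^ 2), gl l (a ^ 2 * k)| ≤ 8 * l := by
      intro a _
      rw [abs_mul]
      calc |mr a| * |∑ k ∈ Finset.Icc 1 (⌊X⌋₊ / a ^ 2), gl l (a ^ 2 * k)|
          ≤ 1 * (8 * l) := mul_le_mul (mr_abs a) (inner_bound l a _ hl hsf) (abs_nonneg _)
            zero_le_one
        _ = 8 * l := one_mul _
    refine (Finset.sum_le_sum h8).trans ?_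
    rw [Finset.sum_const, Nat.card_Icc, Nat.add_sub_cancel, nsmul_eq_mul, mul_comm]
    exact mul_le_mul_of_nonneg_left h1 (by positivity)
  have h8 : |∑ D ∈ fam X, gl l D| ≤ 8 * l * Real.sqrt X + 1 := by
    have h9 := abs_le.1 h6
    have h10 := abs_le.1 h7
    rw [abs_le]
    constructor <;> linarith
  have h9 : (1 : ℝ) ≤ l * Real.sqrt X := by nlinarith
  calc |∑ D ∈ fam X, gl l D| ≤ 8 * l * Real.sqrt X + 1 := h8
    _ ≤ 9 * l * Real.sqrt X := by linarith
    _ ≤ 9 * l * X ^ (3 / 4 : ℝ) := mul_le_mul_of_nonneg_left h3 (by positivity)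

/-! ### The number of the discriminants -/

theorem card_three (m : ℕ) : ∑ k ∈ Finset.Icc 1 m, (if k % 4 = 3 then (1 : ℝ) else 0) =
    (((m + 1) / 4 : ℕ) : ℝ) := by
  induction m with
  | zero => simp
  | succ m ih =>
    rw [Finset.sum_Icc_succ_top (by omega), ih]
    split_ifs with h
    · have : (m + 1 + 1) / 4 = (m + 1) / 4 + 1 := by omega
      rw [this]
      push_cast
      ring
    · have : (m + 1 + 1) / 4 = (m + 1) / 4 := by omega
      rw [this, add_zero]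

theorem inner_count (a m : ℕ) : ∑ k ∈ Finset.Icc 1 m, (if (a ^ 2 * k) % 4 = 3 then (1 : ℝ) else 0) =
    if a % 2 = 1 then (((m + 1) / 4 : ℕ) : ℝ) else 0 := by
  by_cases ha : a % 2 = 1
  · rw [if_pos ha, ← card_three]
    refine Finset.sum_congr rfl fun k _ => ?_
    have h1 : a ^ 2 % 4 = 1 := by
      rcases (by omega : a % 4 = 1 ∨ a % 4 = 3) with h | h <;> rw [Nat.pow_mod, h]
    have h2 : (a ^ 2 * k) % 4 = k % 4 := by
      rw [Nat.mul_mod, h1, one_mul, Nat.mod_mod]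
    rw [h2]
  · rw [if_neg ha]
    refine Finset.sum_eq_zero fun k _ => ?_
    rw [if_neg]
    obtain ⟨b, rfl⟩ : ∃ b, a = 2 * b := ⟨a / 2, by omega⟩
    have : (2 * b) ^ 2 * k = 4 * (b ^ 2 * k) := by ring
    omega

theorem chs_two : ∃ C : ℝ, 0 < C ∧ ∀ X : ℝ, 1 ≤ X → |((fam X).card : ℝ) - 2 / π ^ 2 * X| ≤
    C * X ^ (3 / 4 : ℝ) := by
  refine ⟨3, by norm_num, fun X hX => ?_⟩
  obtain ⟨h1, h2, h3, h4⟩ := sqrt_facts X hX
  have hX0 : 0 < X := by linarith
  set r := Nat.sqrt ⌊X⌋₊ with hr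
  have h5 : ((fam X).card : ℝ) = ∑ D ∈ fam X, (if D % 4 = 3 then (1 : ℝ) else 0) := by
    rw [Finset.sum_congr rfl (fun D hD => if_pos (Finset.mem_filter.1 hD).2.2.1),
      Finset.sum_const, nsmul_eq_mul, mul_one]
  have h6 := sum_fam X (fun D => if D % 4 = 3 then (1 : ℝ) else 0)
    (fun D => by split_ifs <;> norm_num) (fun D hD => if_neg hD)
  rw [← h5, sum_sf] at h6
  simp only [inner_count] at h6
  have h7 : |∑ a ∈ Finset.Icc 1 r, mr a * (if a % 2 = 1 then
      (((⌊X⌋₊ / a ^ 2 + 1) / 4 : ℕ) : ℝ) else 0) - X / 4 * ∑ a ∈ Finset.Icc 1 r, fo a| ≤ r := by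
    rw [Finset.mul_sum, ← Finset.sum_sub_distrib]
    refine (Finset.abs_sum_le_sum_abs _ _).trans ?_
    have h8 : ∀ a ∈ Finset.Icc 1 r, |mr a * (if a % 2 = 1 then
        (((⌊X⌋₊ / a ^ 2 + 1) / 4 : ℕ) : ℝ) else 0) - X / 4 * fo a| ≤ 1 := by
      intro a ha
      rw [Finset.mem_Icc] at ha
      rw [fo]
      split_ifs with ha2
      · have ha0 : (0 : ℝ) < (a : ℝ) ^ 2 := by
          have : (0 : ℝ) < a := by exact_mod_cast ha.1
          positivity
        set m := ⌊X⌋₊ / a ^ 2 with hm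
        set c := (m + 1) / 4 with hc
        have e1 : (m : ℝ) ≤ X / (a : ℝ) ^ 2 := by
          rw [le_div_iff₀ ha0]
          have : m * a ^ 2 ≤ ⌊X⌋₊ := Nat.div_mul_le_self _ _
          calc (m : ℝ) * (a : ℝ) ^ 2 = ((m * a ^ 2 : ℕ) : ℝ) := by push_cast; ring
            _ ≤ (⌊X⌋₊ : ℝ) := by exact_mod_cast this
            _ ≤ X := Nat.floor_le hX0.le
        have e2 : X / (a : ℝ) ^ 2 ≤ (m : ℝ) + 1 := by
          rw [div_le_iff₀ ha0]
          have h9 : ⌊X⌋₊ < (m + 1) * a ^ 2 := by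
            have := Nat.lt_mul_div_succ ⌊X⌋₊ (show 0 < a ^ 2 from pow_pos ha.1 2)
            rw [mul_comm]
            exact this
          have h10 : ((⌊X⌋₊ + 1 : ℕ) : ℝ) ≤ (((m + 1) * a ^ 2 : ℕ) : ℝ) := by exact_mod_cast h9
          push_cast at h10
          have h11 := Nat.lt_floor_add_one X
          linarith
        have e3 : 4 * c ≤ m + 1 := by omega
        have e4 : m ≤ 4 * c + 2 := by omega
        have e3' : 4 * (c : ℝ) ≤ m + 1 := by exact_mod_cast e3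
        have e4' : (m : ℝ) ≤ 4 * c + 2 := by exact_mod_cast e4
        have e5 : mr a * (c : ℝ) - X / 4 * (mr a / (a : ℝ) ^ 2) =
            mr a * ((c : ℝ) - X / (a : ℝ) ^ 2 / 4) := by ring
        rw [e5, abs_mul]
        have e6 : |(c : ℝ) - X / (a : ℝ) ^ 2 / 4| ≤ 1 := by
          rw [abs_le]
          constructor <;> linarith
        calc |mr a| * |(c : ℝ) - X / (a : ℝ) ^ 2 / 4| ≤ 1 * 1 :=
              mul_le_mul (mr_abs a) e6 (abs_nonneg _) zero_le_one
          _ = 1 := one_mul 1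
      · simp
    refine (Finset.sum_le_sum h8).trans ?_
    rw [Finset.sum_const, Nat.card_Icc, Nat.add_sub_cancel, nsmul_eq_mul, mul_one]
  have h8 : |X / 4 * ∑ a ∈ Finset.Icc 1 r, fo a - 2 / π ^ 2 * X| ≤ Real.sqrt X / 2 := by
    have h9 := fo_tail r
    have h10 : X / 4 * ∑ a ∈ Finset.Icc 1 r, fo a - 2 / π ^ 2 * X =
        X / 4 * (∑ a ∈ Finset.Icc 1 r, fo a - 8 / π ^ 2) := by ring
    rw [h10, abs_mul, abs_of_nonneg (by positivity : 0 ≤ X / 4)]
    have h11 : 0 < Real.sqrt X := by linarith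
    calc X / 4 * |∑ a ∈ Finset.Icc 1 r, fo a - 8 / π ^ 2| ≤ X / 4 * (2 / ((r : ℝ) + 1)) :=
          mul_le_mul_of_nonneg_left h9 (by positivity)
      _ ≤ X / 4 * (2 / Real.sqrt X) := by
          refine mul_le_mul_of_nonneg_left ?_ (by positivity)
          exact div_le_div_of_nonneg_left (by norm_num) h11 h2
      _ = Real.sqrt X / 2 := by
          have h12 := Real.mul_self_sqrt hX0.le
          field_simp
          nlinarith
  have h9 : |((fam X).card : ℝ) - 2 / π ^ 2 * X| ≤ 3 * Real.sqrt X := by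
    have e1 := abs_le.1 h6
    have e2 := abs_le.1 h7
    have e3 := abs_le.1 h8
    rw [abs_le]
    constructor <;> linarith
  exact h9.trans (mul_le_mul_of_nonneg_left h3 (by norm_num))

theorem pf_CHS : T_CHS := ⟨chs_one, chs_two⟩

end Pool.Agent.H49.CN
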