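import Pool.Agent.H31.CN.T3

/-!
# The quadratic form is diagonal up to coprimality
-/

set_option autoImplicit false

namespace Pool.Agent.H49.CN

open Pool.Agent.H31.CN

theorem pf_div {m d : ℕ} (hm : Squarefree m) (hd : d ∣ m) :
    (m / d).primeFactors = m.primeFactors \ d.primeFactors := by
  classical
  obtain ⟨k, rfl⟩ := hd
  have hd0 : d ≠ 0 := left_ne_zero_of_mul hm.ne_zero
  have hcop : Nat.Coprime d k := Nat.coprime_of_squarefree_mul hm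
  rw [Nat.mul_div_cancel_left k (Nat.pos_of_ne_zero hd0), hcop.primeFactors_mul,
    Finset.union_sdiff_cancel_left hcop.disjoint_primeFactors]

/-- expansion over subsets -/
theorem ka_expand {R : Type} [CommRing R] (S₁ S₂ : Finset ℕ) (e a : ℕ → R) :
    ∏ p ∈ S₁ ∪ S₂, (if p ∈ S₁ ∧ p ∈ S₂ then e p + a p ^ 2 else a p) =
      ∑ T ∈ (S₁ ∩ S₂).powerset, (∏ p ∈ T, e p) * ((∏ p ∈ S₁ \ T, a p) * ∏ p ∈ S₂ \ T, a p) := by
  classical
  have h1 : S₁ ∪ S₂ = (S₁ ∩ S₂) ∪ ((S₁ \ (S₁ ∩ S₂)) ∪ (S₂ \ (S₁ ∩ S₂))) := by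
    ext p
    simp only [Finset.mem_union, Finset.mem_inter, Finset.mem_sdiff]
    tauto
  have h2 : Disjoint (S₁ ∩ S₂) ((S₁ \ (S₁ ∩ S₂)) ∪ (S₂ \ (S₁ ∩ S₂))) := by
    rw [Finset.disjoint_left]
    intro p
    simp only [Finset.mem_union, Finset.mem_inter, Finset.mem_sdiff]
    tauto
  have h3 : Disjoint (S₁ \ (S₁ ∩ S₂)) (S₂ \ (S₁ ∩ S₂)) := by
    rw [Finset.disjoint_left]
    intro p
    simp only [Finset.mem_inter, Finset.mem_sdiff]
    tauto
  have h4 : ∏ p ∈ S₁ ∩ S₂, (if p ∈ S₁ ∧ p ∈ S₂ then e p + a p ^ 2 else a p) =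
      ∏ p ∈ S₁ ∩ S₂, (e p + a p ^ 2) :=
    Finset.prod_congr rfl fun p hp => if_pos (Finset.mem_inter.1 hp)
  have h5 : ∏ p ∈ S₁ \ (S₁ ∩ S₂), (if p ∈ S₁ ∧ p ∈ S₂ then e p + a p ^ 2 else a p) =
      ∏ p ∈ S₁ \ (S₁ ∩ S₂), a p :=
    Finset.prod_congr rfl fun p hp => if_neg fun h =>
      (Finset.mem_sdiff.1 hp).2 (Finset.mem_inter.2 h)
  have h6 : ∏ p ∈ S₂ \ (S₁ ∩ S₂), (if p ∈ S₁ ∧ p ∈ S₂ then e p + a p ^ 2 else a p) =
      ∏ p ∈ S₂ \ (S₁ ∩ S₂), a p :=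
    Finset.prod_congr rfl fun p hp => if_neg fun h =>
      (Finset.mem_sdiff.1 hp).2 (Finset.mem_inter.2 h)
  rw [h1, Finset.prod_union h2, Finset.prod_union h3, h4, h5, h6, Finset.prod_add,
    Finset.sum_mul]
  refine Finset.sum_congr rfl fun T hT => ?_
  rw [Finset.mem_powerset] at hT
  have h7 : ∀ S : Finset ℕ, S₁ ∩ S₂ ⊆ S → ∏ p ∈ S \ T, a p =
      (∏ p ∈ S \ (S₁ ∩ S₂), a p) * ∏ p ∈ (S₁ ∩ S₂) \ T, a p := by
    intro S hS
    have h8 : S \ T = (S \ (S₁ ∩ S₂)) ∪ ((S₁ ∩ S₂) \ T) := by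
      ext p
      simp only [Finset.mem_union, Finset.mem_sdiff]
      constructor
      · rintro ⟨h9, h10⟩
        by_cases h11 : p ∈ S₁ ∩ S₂
        · exact Or.inr ⟨h11, h10⟩
        · exact Or.inl ⟨h9, h11⟩
      · rintro (⟨h9, h10⟩ | ⟨h9, h10⟩)
        · exact ⟨h9, fun h => h10 (hT h)⟩
        · exact ⟨hS h9, h10⟩
    rw [h8, Finset.prod_union]
    rw [Finset.disjoint_left]
    intro p h9 h10
    exact (Finset.mem_sdiff.1 h9).2 (Finset.mem_sdiff.1 h10).1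
  rw [h7 S₁ Finset.inter_subset_left, h7 S₂ Finset.inter_subset_right, Finset.prod_pow]
  ring

/-- the element of a pair as a sum over the common divisors -/
theorem ka_sum (n₀ m₁ m₂ : ℕ) (h1 : Squarefree m₁) (h2 : Squarefree m₂) (h3 : m₁ ≤ n₀) :
    ka m₁ m₂ = ∑ d ∈ (Finset.Icc 1 n₀).filter (fun d => Squarefree d),
      if d ∣ m₁ ∧ d ∣ m₂ then (∏ p ∈ d.primeFactors, et p) *
        ((∏ p ∈ (m₁ / d).primeFactors, al p) * ∏ p ∈ (m₂ / d).primeFactors, al p) else 0 := by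
  classical
  rw [← Finset.sum_filter]
  have hka : ka m₁ m₂ = ∏ p ∈ m₁.primeFactors ∪ m₂.primeFactors,
      (if p ∈ m₁.primeFactors ∧ p ∈ m₂.primeFactors then et p + al p ^ 2 else al p) := by
    rw [ka, Nat.primeFactors_mul h1.ne_zero h2.ne_zero]
    refine Finset.prod_congr rfl fun p hp => ?_
    have hpp : p.Prime := by
      rcases Finset.mem_union.1 hp with h | h
      · exact Nat.prime_of_mem_primeFactors h
      · exact Nat.prime_of_mem_primeFactors h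
    have e1 : p ∈ m₁.primeFactors ↔ p ∣ m₁ :=
      ⟨Nat.dvd_of_mem_primeFactors, fun h => Nat.mem_primeFactors.2 ⟨hpp, h, h1.ne_zero⟩⟩
    have e2 : p ∈ m₂.primeFactors ↔ p ∣ m₂ :=
      ⟨Nat.dvd_of_mem_primeFactors, fun h => Nat.mem_primeFactors.2 ⟨hpp, h, h2.ne_zero⟩⟩
    simp only [e1, e2]
  rw [hka, ka_expand]
  symm
  refine Finset.sum_bij' (fun d _ => d.primeFactors) (fun T _ => ∏ p ∈ T, p) ?_ ?_ ?_ ?_ ?_
  · intro d hd
    obtain ⟨hd1, hd2, hd3⟩ := Finset.mem_filter.1 hd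
    rw [Finset.mem_powerset]
    exact Finset.subset_inter (Nat.primeFactors_mono hd2 h1.ne_zero)
      (Nat.primeFactors_mono hd3 h2.ne_zero)
  · intro T hT
    rw [Finset.mem_powerset] at hT
    have hT1 := hT.trans Finset.inter_subset_left
    have hT2 := hT.trans Finset.inter_subset_right
    have hd1 : ∏ p ∈ T, p ∣ m₁ :=
      (Finset.prod_dvd_prod_of_subset _ _ _ hT1).trans (Nat.prod_primeFactors_dvd m₁)
    have hd2 : ∏ p ∈ T, p ∣ m₂ :=
      (Finset.prod_dvd_prod_of_subset _ _ _ hT2).trans (Nat.prod_primeFactors_dvd m₂)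
    rw [Finset.mem_filter, Finset.mem_filter, Finset.mem_Icc]
    exact ⟨⟨⟨Nat.pos_of_dvd_of_pos hd1 (Nat.pos_of_ne_zero h1.ne_zero),
      (Nat.le_of_dvd (Nat.pos_of_ne_zero h1.ne_zero) hd1).trans h3⟩,
      h1.squarefree_of_dvd hd1⟩, hd1, hd2⟩
  · intro d hd
    obtain ⟨hd1, hd2, hd3⟩ := Finset.mem_filter.1 hd
    exact Nat.prod_primeFactors_of_squarefree (Finset.mem_filter.1 hd1).2
  · intro T hT
    rw [Finset.mem_powerset] at hT
    exact Nat.primeFactors_prod fun p hp =>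
      Nat.prime_of_mem_primeFactors (Finset.mem_inter.1 (hT hp)).1
  · intro d hd
    obtain ⟨hd1, hd2, hd3⟩ := Finset.mem_filter.1 hd
    rw [pf_div h1 hd2, pf_div h2 hd3]

/-- the multiples of `d` -/
theorem inner_sum (c : ℕ → ℝ) (n₀ : ℕ) (hc : ∀ m, ¬ Squarefree m → c m = 0)
    (hn : ∀ m, n₀ < m → c m = 0) (d : ℕ) (hd : 1 ≤ d) :
    ∑ m ∈ (Finset.Icc 1 n₀).filter (fun m => d ∣ m), c m • ∏ p ∈ (m / d).primeFactors, al p =
      ∑ n ∈ (Finset.Icc 1 n₀).filter (fun n => Nat.Coprime n d),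
        c (d * n) • ∏ p ∈ n.primeFactors, al p := by
  classical
  refine Finset.sum_bij_ne_zero (fun m _ _ => m / d) ?_ ?_ ?_ ?_
  · intro m hm hne
    obtain ⟨h1, ⟨k, rfl⟩⟩ := Finset.mem_filter.1 hm
    rw [Finset.mem_Icc] at h1
    have hsf : Squarefree (d * k) := by
      by_contra h
      exact hne (by rw [hc _ h, zero_smul])
    rw [Nat.mul_div_cancel_left k hd, Finset.mem_filter, Finset.mem_Icc]
    refine ⟨⟨Nat.pos_of_ne_zero (right_ne_zero_of_mul hsf.ne_zero),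
      (Nat.le_mul_of_pos_left k hd).trans h1.2⟩, (Nat.coprime_of_squarefree_mul hsf).symm⟩
  · intro m hm _ m' hm' _ h
    have h1 := (Finset.mem_filter.1 hm).2
    have h2 := (Finset.mem_filter.1 hm').2
    have h' : m / d = m' / d := h
    rw [← Nat.mul_div_cancel' h1, ← Nat.mul_div_cancel' h2, h']
  · intro n hn' hne
    obtain ⟨h1, h2⟩ := Finset.mem_filter.1 hn'
    rw [Finset.mem_Icc] at h1
    have hle : d * n ≤ n₀ := by
      by_contra h
      exact hne (by rw [hn _ (not_le.1 h), zero_smul])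
    refine ⟨d * n, Finset.mem_filter.2 ⟨Finset.mem_Icc.2 ⟨Nat.mul_pos hd h1.1, hle⟩,
      dvd_mul_right d n⟩, ?_, ?_⟩
    · rw [Nat.mul_div_cancel_left n hd]
      exact hne
    · exact Nat.mul_div_cancel_left n hd
  · intro m hm _
    have h1 := (Finset.mem_filter.1 hm).2
    rw [Nat.mul_div_cancel' h1]

theorem pf_CNV : T_CNV := by
  classical
  intro c n₀ hc hn
  have h1 : ∀ m₁ ∈ Finset.Icc 1 n₀, ∀ m₂ ∈ Finset.Icc 1 n₀, (c m₁ * c m₂) • ka m₁ m₂ =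
      ∑ d ∈ (Finset.Icc 1 n₀).filter (fun d => Squarefree d),
        (∏ p ∈ d.primeFactors, et p) *
        ((if d ∣ m₁ then c m₁ • ∏ p ∈ (m₁ / d).primeFactors, al p else 0) *
        (if d ∣ m₂ then c m₂ • ∏ p ∈ (m₂ / d).primeFactors, al p else 0)) := by
    intro m₁ hm₁ m₂ hm₂
    by_cases hs1 : Squarefree m₁
    swap
    · rw [hc _ hs1]
      simp
    by_cases hs2 : Squarefree m₂
    swap
    · rw [hc _ hs2]
      simp
    rw [ka_sum n₀ m₁ m₂ hs1 hs2 (Finset.mem_Icc.1 hm₁).2, Finset.smul_sum]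
    refine Finset.sum_congr rfl fun d _ => ?_
    by_cases hd1 : d ∣ m₁
    · by_cases hd2 : d ∣ m₂
      · rw [if_pos ⟨hd1, hd2⟩, if_pos hd1, if_pos hd2, smul_mul_smul_comm, mul_smul_comm]
      · rw [if_neg fun h => hd2 h.2, if_neg hd2, smul_zero, mul_zero, mul_zero]
    · rw [if_neg fun h => hd1 h.1, if_neg hd1, smul_zero, zero_mul, mul_zero]
  rw [Finset.sum_congr rfl (fun m₁ hm₁ => Finset.sum_congr rfl (fun m₂ hm₂ => h1 m₁ hm₁ m₂ hm₂))]
  rw [Finset.sum_congr rfl (fun m₁ _ => Finset.sum_comm), Finset.sum_comm]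
  refine Finset.sum_congr rfl fun d hd => ?_
  have hd1 : 1 ≤ d := (Finset.mem_Icc.1 (Finset.mem_filter.1 hd).1).1
  rw [← inner_sum c n₀ hc hn d hd1, Finset.sum_filter, sq, Finset.sum_mul_sum, Finset.mul_sum]
  refine Finset.sum_congr rfl fun m₁ _ => ?_
  rw [Finset.mul_sum]

end Pool.Agent.H49.CN
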