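import Pool.Agent.H31.CN.T6

/-!
# The Artin `L`-function of the induced character
-/

set_option autoImplicit false

open MeasureTheory Set Filter NumberField
open scoped Real nonZeroDivisors

namespace Pool.Agent.H49.CN

open Pool.Agent.H31.CN Pool.Agent.H28.RC Pool.Agent.H37.CA

theorem Lc_eq (K : Type) [Field K] [NumberField K] (ψ : ClassGroup (𝓞 K) →* ℂˣ) (χ : RCC K)
    (hχ : ∀ I : (Ideal (𝓞 K))⁰, χ.ψ (I : Ideal (𝓞 K)) = ((ψ (ClassGroup.mk0 I) : ℂˣ) : ℂ))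
    (F : ℂ → ℂ) (hF : IsLf K ψ F) (s : ℂ) (hs : 1 < s.re) : Lc χ s = F s := by
  have h1 := hF.2 s hs
  let e : {I : Ideal (𝓞 K) // I ≠ ⊥} ≃ (Ideal (𝓞 K))⁰ :=
    Equiv.subtypeEquivRight fun I => by
      rw [mem_nonZeroDivisors_iff_ne_zero]
      rfl
  have h2 := (e.hasSum_iff (f := fun I : (Ideal (𝓞 K))⁰ =>
    ((ψ (ClassGroup.mk0 I) : ℂˣ) : ℂ) * (Ideal.absNorm (I : Ideal (𝓞 K)) : ℂ) ^ (-s))).2 h1
  unfold Lc
  rw [← h2.tsum_eq]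
  refine tsum_congr fun I => ?_
  have h3 := hχ (e I)
  have h4 : ((e I : (Ideal (𝓞 K))⁰) : Ideal (𝓞 K)) = I.1 := rfl
  rw [h4] at h3
  rw [h3]
  rfl

theorem pf_ART (hRCH : T_RCH) (hENT : T_ENT) (hALF : Pool.Agent.H37.CA.T_ALF)
    (hFRE : Pool.Agent.H28.RC.T_FRE) : T_ART := by
  intro K L _ _ _ _ _ _ _ _ hK β hβ ψ hψ hNV F V _ _ _ ρ hρ
  obtain ⟨F0, hF0, hne⟩ := hNV
  obtain ⟨Λ, hΛ, hΛs, hΛh⟩ := hENT K hK.ge ψ hψ F0 hF0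
  obtain ⟨χ, hχ⟩ := hRCH K ψ
  refine ⟨Λ, hΛ, ?_, by rw [hΛh]; exact hne⟩
  intro s hs
  have : IsGalois K L := IsGalois.tower_top_of_isGalois ℚ K L
  have h1 := hALF K L ⊤ χ (β ψ) top_ne_bot (by
    intro P g h _ hg hh
    have hP : P ≠ ⊥ := ((hFRE K L).2.1 P g hg).2
    have h2 := hβ ψ ⟨P, mem_nonZeroDivisors_of_ne_zero hP⟩ g h hg hh
    rw [← h2]
    exact hχ ⟨P, mem_nonZeroDivisors_of_ne_zero hP⟩) F V ρ (fun g => (congrFun hρ g).symm) s hs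
  rw [hΛs s hs, ← Lc_eq K ψ χ hχ F0 hF0 s hs]
  exact h1

end Pool.Agent.H49.CN
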