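import Pool.Agent.H31.CN.T4
import Mathlib.NumberTheory.LSeries.HurwitzZetaValues
import Mathlib.NumberTheory.LSeries.Dirichlet

/-!
# Squarefree numbers: detection by squares, the constant
-/

set_option autoImplicit false

open Finset
open scoped Real

namespace Pool.Agent.H49.CN

open Pool.Agent.H31.CN

/-! ### Detection -/

theorem sq_dvd_iff {a b s : ℕ} (hb : b ≠ 0) (hs : Squarefree s) : a ^ 2 ∣ b ^ 2 * s ↔ a ∣ b := by
  constructor
  · intro h
    have ha : a ≠ 0 := by
      rintro rfl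
      rw [zero_pow two_ne_zero, zero_dvd_iff] at h
      exact mul_ne_zero (pow_ne_zero 2 hb) hs.ne_zero h
    rw [← Nat.factorization_le_iff_dvd ha hb]
    intro p
    have h1 := (Nat.factorization_le_iff_dvd (pow_ne_zero 2 ha)
      (mul_ne_zero (pow_ne_zero 2 hb) hs.ne_zero)).2 h p
    rw [Nat.factorization_mul (pow_ne_zero 2 hb) hs.ne_zero, Nat.factorization_pow,
      Nat.factorization_pow] at h1
    simp only [Finsupp.smul_apply, Finsupp.add_apply, smul_eq_mul] at h1
    have h2 := (Nat.squarefree_iff_factorization_le_one hs.ne_zero).1 hs p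
    omega
  · intro h
    exact Dvd.dvd.mul_right (pow_dvd_pow_of_dvd h 2) s

theorem detect (n D : ℕ) (hD : 1 ≤ D) (hDn : D ≤ n) :
    ∑ a ∈ (Finset.Icc 1 (Nat.sqrt n)).filter (fun a => a ^ 2 ∣ D), mr a =
      if Squarefree D then 1 else 0 := by
  classical
  obtain ⟨s, b, hs0, hb0, hD', hs⟩ := Nat.sq_mul_squarefree_of_pos hD
  have hset : (Finset.Icc 1 (Nat.sqrt n)).filter (fun a => a ^ 2 ∣ D) = b.divisors := by
    ext a
    rw [Finset.mem_filter, Finset.mem_Icc, Nat.mem_divisors, ← hD', sq_dvd_iff hb0.ne' hs]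
    constructor
    · rintro ⟨-, h⟩
      exact ⟨h, hb0.ne'⟩
    · rintro ⟨h, -⟩
      refine ⟨⟨Nat.pos_of_dvd_of_pos h hb0, ?_⟩, h⟩
      refine (Nat.le_of_dvd hb0 h).trans (Nat.le_sqrt.2 ?_)
      calc b * b = b ^ 2 * 1 := by ring
        _ ≤ b ^ 2 * s := Nat.mul_le_mul_left _ hs0
        _ = D := hD'
        _ ≤ n := hDn
  have hsum : ∑ a ∈ b.divisors, mr a = if b = 1 then 1 else 0 := by
    have h1 := congrArg (fun f : ArithmeticFunction ℤ => f b)
      ArithmeticFunction.moebius_mul_coe_zeta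
    simp only [ArithmeticFunction.coe_mul_zeta_apply, ArithmeticFunction.one_apply] at h1
    have h2 := congrArg (fun z : ℤ => (z : ℝ)) h1
    simp only [Int.cast_sum, Int.cast_ite, Int.cast_one, Int.cast_zero] at h2
    exact h2
  rw [hset, hsum]
  by_cases hb : b = 1
  · rw [if_pos hb, if_pos]
    rw [← hD', hb, one_pow, one_mul]
    exact hs
  · rw [if_neg hb, if_neg]
    intro hsf
    apply hb
    have h3 : b * b ∣ D := ⟨s, by rw [← hD']; ring⟩
    exact Nat.isUnit_iff.1 (hsf b h3)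

/-- sums over the squarefree numbers -/
theorem sum_sf (g : ℕ → ℝ) (n : ℕ) :
    ∑ D ∈ (Finset.Icc 1 n).filter Squarefree, g D =
      ∑ a ∈ Finset.Icc 1 (Nat.sqrt n), mr a * ∑ k ∈ Finset.Icc 1 (n / a ^ 2), g (a ^ 2 * k) := by
  classical
  have h1 : ∑ D ∈ (Finset.Icc 1 n).filter Squarefree, g D =
      ∑ D ∈ Finset.Icc 1 n, ∑ a ∈ Finset.Icc 1 (Nat.sqrt n),
        if a ^ 2 ∣ D then mr a * g D else 0 := by
    rw [Finset.sum_filter]
    refine Finset.sum_congr rfl fun D hD => ?_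
    rw [Finset.mem_Icc] at hD
    rw [← Finset.sum_filter, ← Finset.sum_mul, detect n D hD.1 hD.2]
    split_ifs <;> simp
  rw [h1, Finset.sum_comm]
  refine Finset.sum_congr rfl fun a ha => ?_
  rw [Finset.mem_Icc] at ha
  have ha2 : 0 < a ^ 2 := pow_pos ha.1 2
  rw [← Finset.sum_filter, Finset.mul_sum]
  symm
  refine Finset.sum_bij' (fun k _ => a ^ 2 * k) (fun D _ => D / a ^ 2) ?_ ?_ ?_ ?_ ?_
  · intro k hk
    rw [Finset.mem_Icc] at hk
    rw [Finset.mem_filter, Finset.mem_Icc]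
    refine ⟨⟨Nat.mul_pos ha2 hk.1, ?_⟩, dvd_mul_right _ _⟩
    rw [mul_comm]
    exact (Nat.le_div_iff_mul_le ha2).1 hk.2
  · intro D hD
    obtain ⟨h2, h3⟩ := Finset.mem_filter.1 hD
    rw [Finset.mem_Icc] at h2 ⊢
    exact ⟨Nat.div_pos (Nat.le_of_dvd h2.1 h3) ha2, Nat.div_le_div_right h2.2⟩
  · intro k _
    exact Nat.mul_div_cancel_left k ha2
  · intro D hD
    exact Nat.mul_div_cancel' (Finset.mem_filter.1 hD).2
  · intro k _
    rfl

/-! ### The constant -/

theorem mr_abs (n : ℕ) : |mr n| ≤ 1 := by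
  rw [mr, ← Int.cast_abs]
  exact_mod_cast ArithmeticFunction.abs_moebius_le_one

theorem summable_mu : Summable (fun n : ℕ => mr n / (n : ℝ) ^ 2) := by
  refine Summable.of_norm_bounded (g := fun n : ℕ => ((n : ℝ) ^ 2)⁻¹)
    (Real.summable_nat_pow_inv.2 one_lt_two) fun n => ?_
  rw [norm_div, Real.norm_eq_abs, Real.norm_eq_abs, abs_of_nonneg (by positivity : 0 ≤ (n : ℝ) ^ 2),
    div_eq_mul_inv]
  exact mul_le_of_le_one_left (by positivity) (mr_abs n)

theorem tsum_mu : ∑' n : ℕ, mr n / (n : ℝ) ^ 2 = 6 / π ^ 2 := by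
  have h2 : (1 : ℝ) < (2 : ℂ).re := by norm_num
  have h1 := ArithmeticFunction.LSeries_zeta_mul_Lseries_moebius h2
  rw [ArithmeticFunction.LSeries_zeta_eq_riemannZeta h2, riemannZeta_two] at h1
  have h3 : LSeries (fun n => ((ArithmeticFunction.moebius n : ℤ) : ℂ)) 2 =
      ((∑' n : ℕ, mr n / (n : ℝ) ^ 2 : ℝ) : ℂ) := by
    rw [Complex.ofReal_tsum, LSeries]
    refine tsum_congr fun n => ?_
    rw [LSeries.term_def]
    split_ifs with hn
    · simp [hn, mr]
    · rw [mr]
      push_cast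
      norm_num
  rw [h3] at h1
  have h4 : ((π ^ 2 / 6 * ∑' n : ℕ, mr n / (n : ℝ) ^ 2 : ℝ) : ℂ) = ((1 : ℝ) : ℂ) := by
    rw [← Complex.ofReal_one] at h1
    rw [← h1]
    push_cast
    ring
  have h5 := Complex.ofReal_injective h4
  have hpi : π ^ 2 ≠ 0 := pow_ne_zero 2 Real.pi_ne_zero
  field_simp at h5 ⊢
  linarith

/-- the odd terms -/
noncomputable def fo (n : ℕ) : ℝ := if n % 2 = 1 then mr n / (n : ℝ) ^ 2 else 0

theorem fo_abs (n : ℕ) : |fo n| ≤ ((n : ℝ) ^ 2)⁻¹ := by
  rw [fo]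
  split_ifs
  · rw [abs_div, abs_of_nonneg (by positivity : 0 ≤ (n : ℝ) ^ 2), div_eq_mul_inv]
    exact mul_le_of_le_one_left (by positivity) (mr_abs n)
  · rw [abs_zero]; positivity

theorem summable_fo : Summable fo :=
  Summable.of_norm_bounded (g := fun n : ℕ => ((n : ℝ) ^ 2)⁻¹)
    (Real.summable_nat_pow_inv.2 one_lt_two) fun n => fo_abs n

theorem mr_two_mul (k : ℕ) : mr (2 * k) = if k % 2 = 1 then -mr k else 0 := by
  split_ifs with hk
  · have hc : Nat.Coprime 2 k := by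
      rw [Nat.coprime_two_left, Nat.odd_iff]
      exact hk
    rw [mr, mr, ArithmeticFunction.isMultiplicative_moebius.map_mul_of_coprime hc,
      ArithmeticFunction.moebius_apply_prime Nat.prime_two]
    push_cast
    ring
  · have : ¬ Squarefree (2 * k) := by
      intro h
      have h1 : 2 * 2 ∣ 2 * k := Nat.mul_dvd_mul_left 2 (by omega)
      exact absurd (Nat.isUnit_iff.1 (h 2 h1)) (by norm_num)
    rw [mr, ArithmeticFunction.moebius_eq_zero_of_not_squarefree this, Int.cast_zero]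

theorem tsum_fo : ∑' n : ℕ, fo n = 8 / π ^ 2 := by
  have hi2 : Function.Injective (fun k : ℕ => 2 * k) := fun a b h => by
    have : 2 * a = 2 * b := h
    omega
  have hi3 : Function.Injective (fun k : ℕ => 2 * k + 1) := fun a b h => by
    have : 2 * a + 1 = 2 * b + 1 := h
    omega
  have h1 := tsum_even_add_odd (f := fun n : ℕ => mr n / (n : ℝ) ^ 2)
    (summable_mu.comp_injective hi2) (summable_mu.comp_injective hi3)
  have h2 := tsum_even_add_odd (f := fo)
    (summable_fo.comp_injective hi2) (summable_fo.comp_injective hi3)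
  beta_reduce at h1
  have h3 : ∑' k : ℕ, fo (2 * k) = 0 := by
    rw [← tsum_zero]
    refine tsum_congr fun k => ?_
    rw [fo, if_neg (by omega)]
  have h4 : ∑' k : ℕ, fo (2 * k + 1) = ∑' k : ℕ, mr (2 * k + 1) / ((2 * k + 1 : ℕ) : ℝ) ^ 2 := by
    refine tsum_congr fun k => ?_
    rw [fo, if_pos (by omega)]
  have h5 : ∑' k : ℕ, mr (2 * k) / ((2 * k : ℕ) : ℝ) ^ 2 = -(1 / 4) * ∑' k : ℕ, fo k := by
    rw [← tsum_mul_left]
    refine tsum_congr fun k => ?_
    rw [mr_two_mul, fo]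
    split_ifs
    · push_cast
      by_cases hk : (k : ℝ) = 0
      · rw [hk]; simp
      · field_simp
        ring
    · simp
  rw [h3, zero_add, h4] at h2
  rw [h5, h2, tsum_mu] at h1
  have : (3 / 4 : ℝ) * ∑' n : ℕ, fo n = 6 / π ^ 2 := by linarith
  have h6 : ∑' n : ℕ, fo n = 4 / 3 * (6 / π ^ 2) := by linarith
  rw [h6]
  ring

theorem fo_tail (r : ℕ) : |∑ a ∈ Finset.Icc 1 r, fo a - 8 / π ^ 2| ≤ 2 / ((r : ℝ) + 1) := by
  rw [← tsum_fo]
  have h1 := summable_fo.hasSum.tendsto_sum_nat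
  have h2 : ∀ᶠ n in Filter.atTop, |∑ a ∈ Finset.Icc 1 r, fo a - ∑ a ∈ Finset.range n, fo a| ≤
      2 / ((r : ℝ) + 1) := by
    filter_upwards [Filter.eventually_ge_atTop (r + 1)] with n hn
    have h3 : ∑ a ∈ Finset.range n, fo a = ∑ a ∈ Finset.Icc 1 r, fo a +
        ∑ a ∈ Finset.Ioo r n, fo a := by
      have h4 : Finset.range n = {0} ∪ (Finset.Icc 1 r ∪ Finset.Ioo r n) := by
        ext a
        simp only [Finset.mem_range, Finset.mem_union, Finset.mem_singleton, Finset.mem_Icc,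
          Finset.mem_Ioo]
        omega
      have h5 : Disjoint ({0} : Finset ℕ) (Finset.Icc 1 r ∪ Finset.Ioo r n) := by
        rw [Finset.disjoint_left]
        intro a
        simp only [Finset.mem_union, Finset.mem_singleton, Finset.mem_Icc, Finset.mem_Ioo]
        omega
      have h6 : Disjoint (Finset.Icc 1 r) (Finset.Ioo r n) := by
        rw [Finset.disjoint_left]
        intro a
        simp only [Finset.mem_Icc, Finset.mem_Ioo]
        omega
      rw [h4, Finset.sum_union h5, Finset.sum_union h6, Finset.sum_singleton]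
      have : fo 0 = 0 := by rw [fo, if_neg (by norm_num)]
      rw [this, zero_add]
    rw [h3, sub_add_cancel_left, abs_neg]
    refine (Finset.abs_sum_le_sum_abs _ _).trans ?_
    refine (Finset.sum_le_sum fun a _ => fo_abs a).trans ?_
    exact sum_Ioo_inv_sq_le r n
  have h3 := (tendsto_const_nhds (x := ∑ a ∈ Finset.Icc 1 r, fo a)).sub h1
  exact le_of_tendsto h3.abs h2

end Pool.Agent.H49.CN
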